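import Pool.Agent.Helper29.NA.MatA

/-!
# The linear maps

Proof of `exists_maps`. Let `d = card ι ≥ 1` and choose `R ≥ 1` with `R C - d ≥ 2 R H_d`. Let
`J = Σ j : Fin R, Fin (lev d R j)`, `n = card J ≥ 1` (level `0` has `min d R ≥ 1` elements),
`m = 2 n`. Let `K = GaloisField p k`, `k = d R + 1`, a finite field with at least `d R` elements
(`GaloisField.card`), `α : ι × Fin R → K` and `β : ι → K` injective. `V = J → K`,
`e : V × V ≃ₗ[K] Polynomial.degreeLT K m` (both have dimension `m`; see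
`Polynomial.degreeLTEquiv`, `LinearEquiv.ofFinrankEq`), and
`θ s w ⟨j, i⟩ = β s ^ i * eval (α (s, j)) (e w)`, regarded as a map over `ZMod p`.

Let `c, y, x` be as in the statement. Let `a s = card (c s)`, `1 ≤ a s ≤ d`. If
`a s ≤ lev d R j`, then the equations at `⟨j, i⟩`, `i < lev d R j`, say
`∑ t ∈ c s, β t ^ i * v t = 0` for all `i < a s`, where `v t = eval (α (t, j)) (e (y s t))`; by the
Vandermonde determinant (`vandermonde_finset`) all `v t = 0`, in particular
`eval (α (s, j)) (e x) = 0` as `s ∈ c s`, `y s s = x`. The number of pairs `(s, j)` with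
`a s ≤ lev d R j` is `≥ R C - d` (`card_pairs`) `≥ 2 R H_d ≥ 2 n = m` (`sum_lev_le`). So the
polynomial `e x` of degree `< m` has at least `m` roots (`α` is injective) and is zero; so `x = 0`.
-/

namespace Pool.Agent.Helper29.NA

open Function Polynomial

universe u v

private theorem MatB_inj {A B : Type*} [Finite A] [Finite B] (h : Nat.card A ≤ Nat.card B) :
    ∃ f : A → B, Injective f := by
  have := Fintype.ofFinite A
  have := Fintype.ofFinite B
  rw [Nat.card_eq_fintype_card, Nat.card_eq_fintype_card] at h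
  obtain ⟨f⟩ := Function.Embedding.nonempty_of_card_le h
  exact ⟨f, f.injective⟩

private theorem MatB_main (p : ℕ) [Fact p.Prime] (ι : Type u) [Fintype ι] (d R n : ℕ)
    (hd : Fintype.card ι = d) (J : Type) [Fintype J] (fib : J → Fin R × ℕ)
    (hfib : ∀ (j : Fin R) (i : ℕ), i < lev d R j → ∃ x, fib x = (j, i))
    (hJ : Fintype.card J = n) (hn : 0 < n) :
    ∃ (V : Type) (_ : AddCommGroup V) (_ : Module (ZMod p) V), Finite V ∧ Nontrivial V ∧
      ∃ θ : ι → V × V →ₗ[ZMod p] V,
        ∀ (c : ι → Finset ι) (y : ι → ι → V × V) (x : V × V), (∀ s, s ∈ c s) →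
          (∀ s, y s s = x) → (∀ s, ∑ t ∈ c s, θ t (y s t) = 0) →
          2 * n ≤ (Finset.univ.filter fun x : ι × Fin R =>
            (c x.1).card ≤ lev d R x.2).card → x = 0 := by
  classical
  let K := GaloisField p (d * R + 1)
  have hcard : Nat.card K = p ^ (d * R + 1) := GaloisField.card p _ (Nat.succ_ne_zero _)
  have hfin : Finite K := inferInstance
  have h1 : d * R + 1 ≤ Nat.card K := by
    rw [hcard]
    exact ((Nat.lt_pow_self (Fact.out : p.Prime).one_lt).le)
  obtain ⟨α, hα⟩ : ∃ f : ι × Fin R → K, Injective f := by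
    refine MatB_inj ?_
    rw [Nat.card_prod, Nat.card_eq_fintype_card, hd, Nat.card_eq_fintype_card, Fintype.card_fin]
    omega
  obtain ⟨β, hβ⟩ : ∃ f : ι → K, Injective f := by
    rcases Nat.eq_zero_or_pos R with rfl | hR
    · exfalso
      have : IsEmpty J := ⟨fun x => (fib x).1.elim0⟩
      rw [Fintype.card_eq_zero] at hJ
      omega
    · refine MatB_inj ?_
      rw [Nat.card_eq_fintype_card, hd]
      have : d * 1 ≤ d * R := Nat.mul_le_mul_left _ hR
      omega
  let V := J → K
  have hfr : Module.finrank K (V × V) = Module.finrank K (Polynomial.degreeLT K (2 * n)) := by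
    rw [(Polynomial.degreeLTEquiv K (2 * n)).finrank_eq, Module.finrank_prod,
      Module.finrank_pi, Module.finrank_pi, Fintype.card_fin, hJ]
    ring
  have hfd : FiniteDimensional K (Polynomial.degreeLT K (2 * n)) :=
    Module.Finite.equiv (Polynomial.degreeLTEquiv K (2 * n)).symm
  let e : (V × V) ≃ₗ[K] Polynomial.degreeLT K (2 * n) := LinearEquiv.ofFinrankEq _ _ hfr
  let θK : ι → (V × V) →ₗ[K] V := fun s => LinearMap.pi fun x : J =>
    (β s ^ (fib x).2) • ((Polynomial.leval (α (s, (fib x).1))).comp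
      ((Polynomial.degreeLT K (2 * n)).subtype.comp e.toLinearMap))
  have hθ : ∀ s w x, θK s w x =
      β s ^ (fib x).2 * Polynomial.eval (α (s, (fib x).1)) (e w : Polynomial K) := fun s w x => rfl
  have hJne : Nonempty J := Fintype.card_pos_iff.1 (by omega)
  have hnt : Nontrivial K := inferInstance
  refine ⟨V, inferInstance, inferInstance, inferInstance, inferInstance,
    fun s => (θK s).toAddMonoidHom.toZModLinearMap p, ?_⟩
  intro c y x hs hy hsum hcardS
  have key : ∀ z ∈ (Finset.univ.filter fun x : ι × Fin R => (c x.1).card ≤ lev d R x.2),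
      Polynomial.eval (α z) (e x : Polynomial K) = 0 := by
    rintro ⟨s, j⟩ hz
    rw [Finset.mem_filter] at hz
    have hz2 : (c s).card ≤ lev d R j := hz.2
    have h3 : ∀ t ∈ c s, Polynomial.eval (α (t, j)) (e (y s t) : Polynomial K) = 0 := by
      refine vandermonde_finset (c s) β hβ
        (fun t => Polynomial.eval (α (t, j)) (e (y s t) : Polynomial K)) ?_
      intro i hi
      obtain ⟨q, hq⟩ := hfib j i (lt_of_lt_of_le hi hz2)
      have h4 := congrFun (hsum s) q
      rw [Finset.sum_apply] at h4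
      have h5 : ∀ t ∈ c s, ((θK t).toAddMonoidHom.toZModLinearMap p) (y s t) q =
          β t ^ i * Polynomial.eval (α (t, j)) (e (y s t) : Polynomial K) := by
        intro t _
        have h6 := hθ t (y s t) q
        rw [hq] at h6
        exact h6
      rw [Finset.sum_congr rfl h5] at h4
      exact h4
    have h7 := h3 s (hs s)
    rw [hy s] at h7
    exact h7
  have h8 : (e x : Polynomial K) = 0 := by
    refine Polynomial.eq_zero_of_degree_lt_of_eval_index_eq_zero _ (v := α) (hα.injOn) ?_ key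
    have h9 := Polynomial.mem_degreeLT.1 (e x).2
    refine lt_of_lt_of_le h9 ?_
    exact_mod_cast hcardS
  have h10 : e x = 0 := Subtype.ext h8
  exact (LinearEquiv.map_eq_zero_iff e).1 h10

theorem exists_maps (p : ℕ) [Fact p.Prime] (ι : Type u) [Fintype ι] [Nonempty ι] {C : ℝ}
    (hC : 2 * (harmonic (Fintype.card ι) : ℝ) < C) :
    ∃ (V : Type) (_ : AddCommGroup V) (_ : Module (ZMod p) V), Finite V ∧ Nontrivial V ∧
      ∃ θ : ι → V × V →ₗ[ZMod p] V,
        ∀ (c : ι → Finset ι) (y : ι → ι → V × V) (x : V × V), (∀ s, s ∈ c s) →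
          (∀ s, y s s = x) → (∀ s, ∑ t ∈ c s, θ t (y s t) = 0) →
          C ≤ ∑ s, (1 : ℝ) / (c s).card → x = 0 := by
  classical
  have hd : 0 < Fintype.card ι := Fintype.card_pos
  have hpos : 0 < C - 2 * (harmonic (Fintype.card ι) : ℝ) := by linarith
  obtain ⟨R0, hR0⟩ := exists_nat_ge ((Fintype.card ι : ℝ) / (C - 2 * (harmonic (Fintype.card ι) : ℝ)))
  have hR : (Fintype.card ι : ℝ) ≤ ((R0 + 1 : ℕ) : ℝ) * (C - 2 * (harmonic (Fintype.card ι) : ℝ)) := by
    rw [div_le_iff₀ hpos] at hR0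
    push_cast
    nlinarith
  have hlev0 : 0 < lev (Fintype.card ι) (R0 + 1) 0 := by
    unfold lev
    simp only [Fin.val_zero, zero_add, Nat.div_one]
    exact lt_min hd (Nat.succ_pos _)
  have hcardJ : Fintype.card (Σ j : Fin (R0 + 1), Fin (lev (Fintype.card ι) (R0 + 1) j)) =
      ∑ j : Fin (R0 + 1), lev (Fintype.card ι) (R0 + 1) j := by
    rw [Fintype.card_sigma]
    simp
  obtain ⟨V, i1, i2, h1, h2, θ, h3⟩ := MatB_main p ι (Fintype.card ι) (R0 + 1)
    (∑ j : Fin (R0 + 1), lev (Fintype.card ι) (R0 + 1) j) rfl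
    (Σ j : Fin (R0 + 1), Fin (lev (Fintype.card ι) (R0 + 1) j))
    (fun x => (x.1, (x.2 : ℕ))) (fun j i hi => ⟨⟨j, ⟨i, hi⟩⟩, rfl⟩) hcardJ
    (lt_of_lt_of_le hlev0 (Finset.single_le_sum
      (f := fun j => lev (Fintype.card ι) (R0 + 1) j) (fun _ _ => Nat.zero_le _)
      (Finset.mem_univ 0)))
  refine ⟨V, i1, i2, h1, h2, θ, fun c y x hs hy hsum hsz => h3 c y x hs hy hsum ?_⟩
  have h4 := card_pairs (R0 + 1) (fun s => (c s).card) (fun s => Finset.card_pos.2 ⟨s, hs s⟩)
    (fun s => Finset.card_le_univ _) hsz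
  have h5 := sum_lev_le (Fintype.card ι) (R0 + 1)
  have h6 : ((2 * ∑ j : Fin (R0 + 1), lev (Fintype.card ι) (R0 + 1) j : ℕ) : ℝ) ≤
      ((Finset.univ.filter fun x : ι × Fin (R0 + 1) =>
        (c x.1).card ≤ lev (Fintype.card ι) (R0 + 1) x.2).card : ℝ) := by
    refine le_trans ?_ h4
    rw [Nat.cast_mul, Nat.cast_ofNat]
    have h7 : ((R0 + 1 : ℕ) : ℝ) * (C - 2 * (harmonic (Fintype.card ι) : ℝ)) =
        ((R0 + 1 : ℕ) : ℝ) * C - 2 * (((R0 + 1 : ℕ) : ℝ) * (harmonic (Fintype.card ι) : ℝ)) := by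
      ring
    rw [h7] at hR
    linarith
  exact_mod_cast h6

end Pool.Agent.Helper29.NA
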