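import Pool.Agent.Helper29.NA.Count
import Pool.Agent.Helper29.NA.MatB

/-!
# The equivariant embedding of `E × E` in `E`

Proof of `exists_pair`. `S` is nonempty (`Expands S C` at `F = {1}`, and `0 < C` if `S = ∅`). Apply
`exists_maps` to the index type `S`, giving `V`, `θ`. For `z : Q →₀ V × V` put
`Θ z = ∑ s : S, (z.mapRange (θ s)) translated by s on the right`, that is
`Θ z g = ∑ s : S, θ s (z (g * s⁻¹))` (use `Finsupp.equivMapDomain (Equiv.mulRight s)`).
It is additive and commutes with the left translations. Put `a x = Θ (mapRange (·, 0) x)`,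
`b y = Θ (mapRange (0, ·) y)`, so `a x + b y = Θ z` with `z g = (x g, y g)`. Suppose `Θ z = 0` and
`z ≠ 0`; apply `exists_dense` to `F = z.support`, giving `f`; for `s : S` let
`c s = {t : S | f s t⁻¹ ∈ F}` and `y s t = z (f s t⁻¹)`; then `0 = Θ z (f s) = ∑ t ∈ c s, θ t (y s t)`
(the other terms vanish), `s ∈ c s`, `y s s = z f`. So `z f = 0`, contradiction to `f ∈ F`.
-/

namespace Pool.Agent.Helper29.NA

open Function

universe u v

/-- The convolution map. -/
noncomputable def conv {Q : Type u} [Group Q] (S : Finset Q) {W V : Type*} [AddCommGroup W]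
    [AddCommGroup V] (θ : S → W →+ V) : (Q →₀ W) →+ (Q →₀ V) :=
  ∑ s : S, (Finsupp.domCongr (Equiv.mulRight (s : Q))).toAddMonoidHom.comp
    (Finsupp.mapRange.addMonoidHom (θ s))

theorem conv_apply {Q : Type u} [Group Q] (S : Finset Q) {W V : Type*} [AddCommGroup W]
    [AddCommGroup V] (θ : S → W →+ V) (z : Q →₀ W) (g : Q) :
    conv S θ z g = ∑ s : S, θ s (z (g * (s : Q)⁻¹)) := by
  unfold conv
  rw [AddMonoidHom.finsetSum_apply, Finsupp.finsetSum_apply]
  refine Finset.sum_congr rfl fun s _ => ?_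
  rfl

private theorem Amp_lt {Q : Type u} [Group Q] (S : Finset Q) {W V : Type*} [AddCommGroup W]
    [AddCommGroup V] (θ : S → W →+ V) (g : Q) (z : Q →₀ W) :
    conv S θ (lt Q W g z) = lt Q V g (conv S θ z) := by
  ext x
  rw [conv_apply, lt_apply, conv_apply]
  refine Finset.sum_congr rfl fun s _ => ?_
  rw [lt_apply, mul_assoc]

private theorem Amp_map {Q : Type u} [Group Q] {W V : Type*} [AddCommGroup W]
    [AddCommGroup V] (φ : W →+ V) (g : Q) (z : Q →₀ W) :
    Finsupp.mapRange.addMonoidHom φ (lt Q W g z) =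
      lt Q V g (Finsupp.mapRange.addMonoidHom φ z) := by
  ext x
  rfl

theorem exists_pair {Q : Type u} [Group Q] (S : Finset Q) {C : ℝ}
    (hC : 2 * (harmonic S.card : ℝ) < C) (hS : Expands S C) (p : ℕ) [Fact p.Prime] :
    ∃ (V : Type) (_ : AddCommGroup V) (_ : Module (ZMod p) V), Finite V ∧ Nontrivial V ∧
      ∃ a b : (Q →₀ V) →+ (Q →₀ V), (∀ g x, a (lt Q V g x) = lt Q V g (a x)) ∧
        (∀ g x, b (lt Q V g x) = lt Q V g (b x)) ∧ ∀ x y, a x + b y = 0 → x = 0 ∧ y = 0 := by
  classical
  have hSne : S.Nonempty := by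
    rcases S.eq_empty_or_nonempty with h | h
    · exfalso
      subst h
      have h1 := hS {1}
      rw [Finset.card_empty, harmonic_zero] at hC
      simp only [Finset.coe_empty, Set.mul_empty, Set.ncard_empty, Finset.card_singleton,
        Nat.cast_one, mul_one, Nat.cast_zero] at h1
      norm_num at hC
      linarith
    · exact h
  have : Nonempty S := hSne.to_subtype
  obtain ⟨V, i1, i2, hfin, hnt, θ, hθ⟩ := exists_maps p S (C := C) (by
    rw [Fintype.card_coe]; exact hC)
  refine ⟨V, i1, i2, hfin, hnt, ?_⟩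
  let θ' : S → V × V →+ V := fun s => (θ s).toAddMonoidHom
  refine ⟨(conv S θ').comp (Finsupp.mapRange.addMonoidHom (AddMonoidHom.inl V V)),
    (conv S θ').comp (Finsupp.mapRange.addMonoidHom (AddMonoidHom.inr V V)), ?_, ?_, ?_⟩
  · intro g x
    rw [AddMonoidHom.comp_apply, AddMonoidHom.comp_apply, Amp_map, Amp_lt]
  · intro g x
    rw [AddMonoidHom.comp_apply, AddMonoidHom.comp_apply, Amp_map, Amp_lt]
  intro x y hxy
  rw [AddMonoidHom.comp_apply, AddMonoidHom.comp_apply, ← map_add] at hxy
  set z : Q →₀ V × V := Finsupp.mapRange.addMonoidHom (AddMonoidHom.inl V V) x +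
    Finsupp.mapRange.addMonoidHom (AddMonoidHom.inr V V) y with hz
  have hzg : ∀ g, z g = (x g, y g) := by
    intro g
    rw [hz, Finsupp.add_apply]
    show AddMonoidHom.inl V V (x g) + AddMonoidHom.inr V V (y g) = _
    rw [AddMonoidHom.inl_apply, AddMonoidHom.inr_apply, Prod.mk_add_mk, add_zero, zero_add]
  have hz0 : z = 0 := by
    by_contra hne
    have hF : z.support.Nonempty := Finsupp.support_nonempty_iff.2 hne
    obtain ⟨f, hf, hfC⟩ := exists_dense S z.support hF hS
    have key := hθ (fun s => Finset.univ.filter fun t : S => f * s * (t : Q)⁻¹ ∈ z.support)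
      (fun s t => z (f * s * (t : Q)⁻¹)) (z f) ?_ ?_ ?_ ?_
    · exact (Finsupp.mem_support_iff.1 hf) key
    · intro s
      rw [Finset.mem_filter]
      refine ⟨Finset.mem_univ _, ?_⟩
      rw [mul_inv_cancel_right]
      exact hf
    · intro s
      show z (f * s * (s : Q)⁻¹) = z f
      rw [mul_inv_cancel_right]
    · intro s
      have h1 : conv S θ' z (f * s) = 0 := by rw [hxy]; rfl
      rw [conv_apply] at h1
      rw [← h1]
      refine Finset.sum_subset (Finset.subset_univ _) ?_
      intro t _ ht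
      have h2 : f * s * (t : Q)⁻¹ ∉ z.support := fun h => ht (Finset.mem_filter.2
        ⟨Finset.mem_univ _, h⟩)
      rw [Finsupp.notMem_support_iff] at h2
      show θ t (z (f * s * (t : Q)⁻¹)) = 0
      rw [h2, map_zero]
    · convert hfC using 1
  constructor
  · ext g
    have := hzg g
    rw [hz0] at this
    exact ((Prod.ext_iff.1 this).1).symm
  · ext g
    have := hzg g
    rw [hz0] at this
    exact ((Prod.ext_iff.1 this).2).symm

end Pool.Agent.Helper29.NA
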