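import Pool.Agent.Helper29.NA.Defs

/-!
# Finitely generated semidirect products and non-Hopfian quotients

`fg_sd`: `Sd ρ` is generated by the `⟨x, 1⟩`, `x ∈ X`, and the `⟨0, s⟩`, `s` in a finite generating
set of `G`: the subgroup `K` generated contains all `⟨0, g⟩`, all
`⟨ρ g x, 1⟩ = ⟨0, g⟩ ⟨x, 1⟩ ⟨0, g⟩⁻¹`, and `{m | ⟨m, 1⟩ ∈ K}` is an additive subgroup.

`exists_nonHopfian`: `N' = {x : Sd ρ | x.g = 1 ∧ x.m ∈ N}` is a normal subgroup of `Sd ρ`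
(conjugation: `y ⟨m, 1⟩ y⁻¹ = ⟨ρ y.g m, 1⟩` as `M` is commutative);
`τ = Sd.map t id` is a surjective endomorphism of `Sd ρ` mapping `N'` in `N'`; the induced
endomorphism of `Sd ρ ⧸ N'` is surjective and kills the class of `⟨m₀, 1⟩`, which is not trivial.
The quotient satisfies the laws `L` by `Pool.Agent.Helper13.PV.laws_of_surj`.
-/

namespace Pool.Agent.Helper29.NA

open Function Pool.Agent.Helper32.SmallVar Pool.Agent.Helper13.PV

universe u v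

/-- the inclusion of the module -/
private def Grp_inl {M : Type u} {G : Type v} [AddCommGroup M] [Group G]
    (ρ : G →* AddMonoid.End M) : Multiplicative M →* Sd ρ where
  toFun m := ⟨m.toAdd, 1⟩
  map_one' := rfl
  map_mul' x y := by
    apply Sd.ext'
    · show x.toAdd + y.toAdd = x.toAdd + ρ 1 y.toAdd
      rw [Sd.rho_one]
    · simp

/-- the inclusion of the group -/
private def Grp_inr {M : Type u} {G : Type v} [AddCommGroup M] [Group G]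
    (ρ : G →* AddMonoid.End M) : G →* Sd ρ where
  toFun g := ⟨0, g⟩
  map_one' := rfl
  map_mul' x y := by
    apply Sd.ext' <;> simp

theorem fg_sd {M : Type u} {G : Type v} [AddCommGroup M] [Group G] (ρ : G →* AddMonoid.End M)
    (hG : Group.FG G) (X : Set M) (hX : X.Finite)
    (h : AddSubgroup.closure {m | ∃ g, ∃ x ∈ X, m = ρ g x} = ⊤) : Group.FG (Sd ρ) := by
  obtain ⟨S, hS, hSf⟩ := Group.fg_iff.1 hG
  rw [Group.fg_iff]
  set Y : Set (Sd ρ) := (fun x : M => (⟨x, 1⟩ : Sd ρ)) '' X ∪ (fun s : G => (⟨0, s⟩ : Sd ρ)) '' S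
    with hY
  refine ⟨Y, ?_, (hX.image _).union (hSf.image _)⟩
  set K : Subgroup (Sd ρ) := Subgroup.closure Y with hK
  have h1 : ∀ g : G, (⟨0, g⟩ : Sd ρ) ∈ K := by
    intro g
    have h2 : (⊤ : Subgroup G) ≤ K.comap (Grp_inr ρ) := by
      rw [← hS, Subgroup.closure_le]
      intro s hs
      exact Subgroup.subset_closure (Or.inr ⟨s, hs, rfl⟩)
    exact h2 (Subgroup.mem_top g)
  have h2 : ∀ m : M, (⟨m, 1⟩ : Sd ρ) ∈ K := by
    intro m
    let A : AddSubgroup M := (K.comap (Grp_inl ρ)).toAddSubgroup'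
    have h3 : (⊤ : AddSubgroup M) ≤ A := by
      rw [← h, AddSubgroup.closure_le]
      rintro _ ⟨g, x, hx, rfl⟩
      show (⟨ρ g x, 1⟩ : Sd ρ) ∈ K
      have h4 : (⟨ρ g x, 1⟩ : Sd ρ) = ⟨0, g⟩ * ⟨x, 1⟩ * (⟨0, g⟩ : Sd ρ)⁻¹ := by
        apply Sd.ext' <;> simp
      rw [h4]
      exact K.mul_mem (K.mul_mem (h1 g) (Subgroup.subset_closure (Or.inl ⟨x, hx, rfl⟩)))
        (K.inv_mem (h1 g))
    exact h3 (AddSubgroup.mem_top m)
  rw [eq_top_iff]
  intro x _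
  have h3 : x = ⟨x.m, 1⟩ * (⟨0, x.g⟩ : Sd ρ) := by
    apply Sd.ext' <;> simp
  rw [h3]
  exact K.mul_mem (h2 _) (h1 _)

theorem exists_nonHopfian {M : Type u} {G : Type u} [AddCommGroup M] [Group G]
    (ρ : G →* AddMonoid.End M) (hfg : Group.FG (Sd ρ)) (t : M →+ M) (ht : Surjective t)
    (htρ : ∀ g m, t (ρ g m) = ρ g (t m)) (N : AddSubgroup M) (hN : ∀ g, ∀ m ∈ N, ρ g m ∈ N)
    (htN : ∀ m ∈ N, t m ∈ N) (m₀ : M) (h1 : m₀ ∉ N) (h2 : t m₀ ∈ N) (L : Set (FreeGroup ℕ))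
    (hL : SatisfiesLaws L (Sd ρ)) :
    ∃ (H : Type u) (_ : Group H), Group.FG H ∧ SatisfiesLaws L H ∧ ¬ IsHopfian H := by
  let N' : Subgroup (Sd ρ) :=
    { carrier := {x | x.g = 1 ∧ x.m ∈ N}
      mul_mem' := by
        rintro x y ⟨hx1, hx2⟩ ⟨hy1, hy2⟩
        refine ⟨?_, ?_⟩
        · rw [Sd.mul_g, hx1, hy1, one_mul]
        · rw [Sd.mul_m, hx1, Sd.rho_one]
          exact N.add_mem hx2 hy2
      one_mem' := ⟨rfl, N.zero_mem⟩
      inv_mem' := by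
        rintro x ⟨hx1, hx2⟩
        refine ⟨?_, ?_⟩
        · rw [Sd.inv_g, hx1, inv_one]
        · rw [Sd.inv_m]
          exact N.neg_mem (hN _ _ hx2) }
  have hmem : ∀ x : Sd ρ, x ∈ N' ↔ x.g = 1 ∧ x.m ∈ N := fun x => Iff.rfl
  haveI hnorm : N'.Normal := by
    refine ⟨?_⟩
    intro x hx y
    rw [hmem] at hx ⊢
    obtain ⟨hx1, hx2⟩ := hx
    refine ⟨?_, ?_⟩
    · rw [Sd.mul_g, Sd.mul_g, Sd.inv_g, hx1, mul_one, mul_inv_cancel]
    · rw [Sd.mul_m, Sd.mul_m, Sd.mul_g, Sd.inv_m, hx1, mul_one, map_neg, Sd.rho_inv]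
      have : y.m + ρ y.g x.m + -y.m = ρ y.g x.m := by abel
      rw [this]
      exact hN _ _ hx2
  let τ : Sd ρ →* Sd ρ := Sd.map t (MonoidHom.id G) (fun g m => htρ g m)
  have hτm : ∀ x, (τ x).m = t x.m := fun x => rfl
  have hτg : ∀ x, (τ x).g = x.g := fun x => rfl
  have hτN : N' ≤ N'.comap τ := by
    intro x hx
    rw [hmem] at hx
    rw [Subgroup.mem_comap, hmem, hτm, hτg]
    exact ⟨hx.1, htN _ hx.2⟩
  let φ : Sd ρ ⧸ N' →* Sd ρ ⧸ N' := QuotientGroup.map N' N' τ hτN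
  have hτs : Surjective τ := by
    intro y
    obtain ⟨m, hm⟩ := ht y.m
    exact ⟨⟨m, y.g⟩, Sd.ext' hm rfl⟩
  have hφs : Surjective φ := by
    intro y
    obtain ⟨y', rfl⟩ := QuotientGroup.mk_surjective y
    obtain ⟨x, hx⟩ := hτs y'
    refine ⟨(x : Sd ρ ⧸ N'), ?_⟩
    show ((τ x : Sd ρ) : Sd ρ ⧸ N') = _
    rw [hx]
  refine ⟨Sd ρ ⧸ N', inferInstance, ?_, ?_, ?_⟩
  · haveI := hfg
    exact QuotientGroup.fg N'
  · exact laws_of_surj (QuotientGroup.mk' N') (QuotientGroup.mk'_surjective N') hL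
  · intro hH
    have h3 := hH φ hφs
    have h4 : φ ((⟨m₀, 1⟩ : Sd ρ) : Sd ρ ⧸ N') = φ 1 := by
      rw [map_one]
      show ((τ ⟨m₀, 1⟩ : Sd ρ) : Sd ρ ⧸ N') = 1
      rw [QuotientGroup.eq_one_iff, hmem]
      exact ⟨rfl, h2⟩
    have h5 := h3 h4
    rw [QuotientGroup.eq_one_iff, hmem] at h5
    exact h1 h5.2

end Pool.Agent.Helper29.NA
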