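import Pool.Agent.Helper29.NA.Defs

/-!
# Laws of the wreath products, first part

All proofs: `laws_of_inj`, `laws_of_surj`, `laws_pi` of `Pool/Agent/Helper13/PV/Defs.lean` applied to
homomorphisms.
* `laws_wr`: `m = orderOf a`; the additive map `ZMod m → Additive A`, `k ↦ a ^ k`
  (`ZMod.lift`, injective by `ZMod.lift_injective` and `orderOf_dvd_iff_zpow_eq_one`); the map
  `⟨f, g⟩ ↦ (x ↦ a ^ f x, g)` to the restricted wreath product is an injective homomorphism.
* `laws_cyc`: choose `a ≠ 1`, `m = orderOf a ≠ 1`, a prime `p` dividing `m` (if `m = 0` any prime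
  works); `Multiplicative (ZMod m)` embeds in `A` as above and maps onto
  `Multiplicative (ZMod p)` (`ZMod.castHom`).
-/

namespace Pool.Agent.Helper29.NA

open Function Pool.Agent.Helper32.SmallVar Pool.Agent.Helper13.PV

universe u v

variable {L LU LW : Set (FreeGroup ℕ)}

/-- The powers of `a`. -/
private noncomputable def lawA_hom {A : Type u} [Group A] (a : A) :
    ZMod (orderOf a) →+ Additive A :=
  ZMod.lift (orderOf a) ⟨zmultiplesHom (Additive A) (Additive.ofMul a), by
    rw [zmultiplesHom_apply, natCast_zsmul, ← ofMul_pow, pow_orderOf_eq_one, ofMul_one]⟩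

private theorem lawA_hom_inj {A : Type u} [Group A] (a : A) : Injective (lawA_hom a) := by
  unfold lawA_hom
  rw [ZMod.lift_injective]
  intro m hm
  have h1 : m • Additive.ofMul a = 0 := hm
  rw [← ofMul_zpow, ofMul_eq_zero] at h1
  rw [CharP.intCast_eq_zero_iff (ZMod (orderOf a)) (orderOf a)]
  exact orderOf_dvd_iff_zpow_eq_one.2 h1

theorem laws_wr {A G : Type u} [Group A] [Group G] (a : A)
    (h : SatisfiesLaws L (restrictedWreath A G)) : SatisfiesLaws L (Sd (lt G (ZMod (orderOf a)))) := by
  let F : Sd (lt G (ZMod (orderOf a))) → restrictedWreath A G := fun x =>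
    ⟨⟨fun z => (lawA_hom a (x.m z)).toMul, x.g⟩, by
      refine (x.m.hasFiniteSupport).subset ?_
      intro z hz
      rw [mem_mulSupport] at hz
      rw [Function.mem_support]
      intro h0
      apply hz
      simp only [h0, map_zero]
      rfl⟩
  let Φ : Sd (lt G (ZMod (orderOf a))) →* restrictedWreath A G := MonoidHom.mk' F (by
    intro x y
    apply Subtype.ext
    apply RegularWreathProduct.ext
    · funext z
      change (lawA_hom a ((x.m + lt G (ZMod (orderOf a)) x.g y.m) z)).toMul =
        (lawA_hom a (x.m z)).toMul * (lawA_hom a (y.m (x.g⁻¹ * z))).toMul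
      rw [Finsupp.add_apply, lt_apply, map_add, toMul_add]
    · rfl)
  refine laws_of_inj Φ ?_ h
  intro x y hxy
  have h1 : F x = F y := hxy
  have h2 := congrArg Subtype.val h1
  apply Sd.ext'
  · ext z
    have h3 : (lawA_hom a (x.m z)).toMul = (lawA_hom a (y.m z)).toMul :=
      congrFun (congrArg RegularWreathProduct.left h2) z
    exact lawA_hom_inj a (Additive.toMul.injective h3)
  · exact congrArg RegularWreathProduct.right h2

/-- Some prime order cyclic group is a quotient of a given cyclic group which is not trivial. -/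
theorem laws_cyc {A : Type u} [Group A] [Nontrivial A] (h : SatisfiesLaws LU A) :
    ∃ p : ℕ, p.Prime ∧ SatisfiesLaws LU (Multiplicative (ZMod p)) := by
  obtain ⟨a, ha⟩ := exists_ne (1 : A)
  have hm : orderOf a ≠ 1 := by
    rwa [Ne, orderOf_eq_one_iff]
  obtain ⟨p, hp, hpm⟩ := Nat.exists_prime_and_dvd hm
  refine ⟨p, hp, ?_⟩
  have h1 : SatisfiesLaws LU (Multiplicative (ZMod (orderOf a))) :=
    laws_of_inj (AddMonoidHom.toMultiplicativeLeft (lawA_hom a)) (fun x y hxy => lawA_hom_inj a hxy) h
  refine laws_of_surj (AddMonoidHom.toMultiplicative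
    (ZMod.castHom hpm (ZMod p)).toAddMonoidHom) ?_ h1
  intro y
  obtain ⟨x, hx⟩ := ZMod.ringHom_surjective (ZMod.castHom hpm (ZMod p)) (Multiplicative.toAdd y)
  exact ⟨Multiplicative.ofAdd x, congrArg Multiplicative.ofAdd hx⟩

end Pool.Agent.Helper29.NA
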