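import Pool.Agent.Helper29.NA.Defs

/-!
# Laws of the wreath products, second part

All proofs: `laws_of_inj`, `laws_of_surj`, `laws_pi` of `Pool/Agent/Helper13/PV/Defs.lean` applied to
homomorphisms `Sd.map f φ h`.
* `laws_quot`: `Finsupp.mapRange` of a surjective map is surjective.
* `laws_sub`: extension by zero (`Finsupp.embDomain` or `mapDomain` along `Q → G`) is injective.
* `laws_vec`: the functionals `V → ZMod p` separate points
  (`Module.forall_dual_apply_eq_zero_iff`), so `Sd (lt G V)` embeds in the product, over the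
  functionals, of copies of `Sd (lt G (ZMod p))`.
* `laws_two`: `Sd (lt2 G V)` embeds in the product of two copies of `Sd (lt G V)`.
* `inProduct_sd`: the kernel of the projection to `G` embeds in a power of the group
  `Multiplicative V`, and the quotient is isomorphic to `G`.
-/

namespace Pool.Agent.Helper29.NA

open Function Pool.Agent.Helper32.SmallVar Pool.Agent.Helper13.PV

universe u v

variable {L LU LW : Set (FreeGroup ℕ)}

/-- The diagonal action on pairs. -/
noncomputable def lt2 (G : Type u) (V : Type v) [Group G] [AddCommGroup V] :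
    G →* AddMonoid.End ((G →₀ V) × (G →₀ V)) where
  toFun g := AddMonoidHom.prodMap (lt G V g) (lt G V g)
  map_one' := by
    rw [map_one]; rfl
  map_mul' g h := by
    rw [map_mul]; rfl

theorem laws_quot {G : Type u} [Group G] {V V' : Type*} [AddCommGroup V] [AddCommGroup V']
    (f : V →+ V') (hf : Surjective f) (h : SatisfiesLaws L (Sd (lt G V))) :
    SatisfiesLaws L (Sd (lt G V')) := by
  have heq : ∀ (g : G) (m : G →₀ V), Finsupp.mapRange.addMonoidHom f (lt G V g m) =
      lt G V' (MonoidHom.id G g) (Finsupp.mapRange.addMonoidHom f m) := by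
    intro g m
    ext x
    simp
  refine laws_of_surj (Sd.map (Finsupp.mapRange.addMonoidHom f) (MonoidHom.id G) heq) ?_ h
  rintro ⟨m, g⟩
  obtain ⟨m', hm'⟩ := Finsupp.mapRange_surjective (α := G) f (map_zero f) hf m
  exact ⟨⟨m', g⟩, Sd.ext' hm' rfl⟩

theorem laws_sub {G : Type u} [Group G] {V : Type*} [AddCommGroup V] (Q : Subgroup G)
    (h : SatisfiesLaws L (Sd (lt G V))) : SatisfiesLaws L (Sd (lt Q V)) := by
  have heq : ∀ (g : Q) (m : Q →₀ V),
      Finsupp.mapDomain.addMonoidHom (M := V) (Subtype.val : Q → G) (lt Q V g m) =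
      lt G V (Q.subtype g) (Finsupp.mapDomain.addMonoidHom (Subtype.val : Q → G) m) := by
    intro g m
    show Finsupp.mapDomain Subtype.val (m.equivMapDomain (Equiv.mulLeft g)) =
      (Finsupp.mapDomain Subtype.val m).equivMapDomain (Equiv.mulLeft (g : G))
    rw [Finsupp.equivMapDomain_eq_mapDomain, Finsupp.equivMapDomain_eq_mapDomain,
      ← Finsupp.mapDomain_comp, ← Finsupp.mapDomain_comp]
    rfl
  refine laws_of_inj (Sd.map (Finsupp.mapDomain.addMonoidHom (Subtype.val : Q → G)) Q.subtype
    heq) ?_ h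
  intro x y hxy
  have h1 : Finsupp.mapDomain (Subtype.val : Q → G) x.m = Finsupp.mapDomain Subtype.val y.m :=
    congrArg Sd.m hxy
  have h2 : (x.g : G) = y.g := congrArg Sd.g hxy
  exact Sd.ext' (Finsupp.mapDomain_injective Subtype.val_injective h1) (Subtype.ext h2)

theorem laws_vec {G : Type u} [Group G] (p : ℕ) [Fact p.Prime] {V : Type*} [AddCommGroup V]
    [Module (ZMod p) V] (h : SatisfiesLaws L (Sd (lt G (ZMod p)))) :
    SatisfiesLaws L (Sd (lt G V)) := by
  have heq : ∀ (f : Module.Dual (ZMod p) V) (g : G) (m : G →₀ V),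
      Finsupp.mapRange.addMonoidHom (f : V →+ ZMod p) (lt G V g m) =
      lt G (ZMod p) (MonoidHom.id G g) (Finsupp.mapRange.addMonoidHom (f : V →+ ZMod p) m) := by
    intro f g m
    ext x
    simp
  refine laws_of_inj (MonoidHom.pi fun f : Module.Dual (ZMod p) V =>
    Sd.map (Finsupp.mapRange.addMonoidHom (f : V →+ ZMod p)) (MonoidHom.id G) (heq f)) ?_
    (laws_pi fun _ => h)
  intro x y hxy
  have h0 : ∀ f : Module.Dual (ZMod p) V,
      Sd.map (ρ := lt G V) (ρ' := lt G (ZMod p))
        (Finsupp.mapRange.addMonoidHom (f : V →+ ZMod p)) (MonoidHom.id G) (heq f) x =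
      Sd.map (ρ := lt G V) (ρ' := lt G (ZMod p))
        (Finsupp.mapRange.addMonoidHom (f : V →+ ZMod p)) (MonoidHom.id G) (heq f) y :=
    fun f => congrFun hxy f
  have hxg : x.g = y.g := by
    have h1 := congrArg Sd.g (h0 0)
    exact h1
  refine Sd.ext' ?_ hxg
  ext g
  rw [← sub_eq_zero, ← Module.forall_dual_apply_eq_zero_iff (ZMod p)]
  intro f
  have h1 : Finsupp.mapRange.addMonoidHom (f : V →+ ZMod p) x.m =
      Finsupp.mapRange.addMonoidHom (f : V →+ ZMod p) y.m := congrArg Sd.m (h0 f)
  have h2 := DFunLike.congr_fun h1 g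
  simp only [Finsupp.mapRange.addMonoidHom_apply, Finsupp.mapRange_apply] at h2
  rw [map_sub, sub_eq_zero]
  exact h2

theorem laws_two {G : Type u} [Group G] {V : Type*} [AddCommGroup V]
    (h : SatisfiesLaws L (Sd (lt G V))) : SatisfiesLaws L (Sd (lt2 G V)) := by
  let a : Sd (lt2 G V) →* Sd (lt G V) :=
    Sd.map (AddMonoidHom.fst _ _) (MonoidHom.id G) (fun _ _ => rfl)
  let b : Sd (lt2 G V) →* Sd (lt G V) :=
    Sd.map (AddMonoidHom.snd _ _) (MonoidHom.id G) (fun _ _ => rfl)
  refine laws_of_inj (MonoidHom.pi fun i : Bool => if i then a else b) ?_ (laws_pi fun _ => h)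
  intro x y hxy
  have ha : a x = a y := congrFun hxy true
  have hb : b x = b y := congrFun hxy false
  have h1 : x.m.1 = y.m.1 := (congrArg Sd.m ha : (a x).m = (a y).m)
  have h2 : x.m.2 = y.m.2 := (congrArg Sd.m hb : (b x).m = (b y).m)
  have h3 : x.g = y.g := (congrArg Sd.g ha : (a x).g = (a y).g)
  exact Sd.ext' (Prod.ext h1 h2) h3

/-- The projection of the semidirect product to the group. -/
private def pr {G : Type u} [Group G] {M : Type v} [AddCommGroup M]
    (ρ : G →* AddMonoid.End M) : Sd ρ →* G where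
  toFun x := x.g
  map_one' := rfl
  map_mul' _ _ := rfl

theorem inProduct_sd {G : Type u} [Group G] {V : Type*} [AddCommGroup V]
    (hU : SatisfiesLaws LU (Multiplicative V)) (hW : SatisfiesLaws LW G) :
    InProduct LU LW (Sd (lt G V)) := by
  refine ⟨(pr (lt G V)).ker, inferInstance, ?_, ?_⟩
  · have hg : ∀ x : (pr (lt G V)).ker, x.1.g = 1 := fun x => x.2
    let e : (pr (lt G V)).ker →* (G → Multiplicative V) :=
      { toFun := fun x g => Multiplicative.ofAdd (x.1.m g)
        map_one' := rfl
        map_mul' := fun x y => by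
          funext g
          show Multiplicative.ofAdd ((x.1.m + lt G V x.1.g y.1.m) g) =
            Multiplicative.ofAdd (x.1.m g) * Multiplicative.ofAdd (y.1.m g)
          rw [hg x, Sd.rho_one, Finsupp.add_apply, ofAdd_add] }
    refine laws_of_inj e ?_ (laws_pi fun _ => hU)
    intro x y hxy
    refine Subtype.ext (Sd.ext' ?_ ((hg x).trans (hg y).symm))
    ext g
    exact congrFun hxy g
  · exact laws_of_inj (QuotientGroup.kerLift (pr (lt G V)))
      (QuotientGroup.kerLift_injective (pr (lt G V))) hW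

end Pool.Agent.Helper29.NA
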