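import Mathlib

/-!
# A non-Hopfian module

Let `a, b` be endomorphisms of `E` such that `(x, y) ↦ a x + b y` is injective, and let
`t (x, y) = (y, x + a y)`, an automorphism of `E × E`.

Proof of `exists_sub`. Put `w i x = t^i (0, b x)`, `u i x = (w i x).1`, so `u 0 = 0`, `u 1 = b`,
`u (i + 2) x = u i x + a (u (i + 1) x)` (as `(w i x).2 = u (i + 1) x`). Let `N` be the range of
`Φ : (ℕ →₀ E) →+ E × E`, `Φ c = ∑ i, w (i + 1) (c i)`. Then `t (w i x) = w (i + 1) x`, so `N` is
closed under `t`, `t (0, b x) = (b x, a (b x)) = w 1 x ∈ N`, and endomorphisms commuting with `a`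
and `b` preserve `N`.

Let `P 0 = ⊥`, `P (k + 1) = range b ⊔ (P k).map a`, subgroups of `E`. By induction `P k ≤ P (k + 1)`
and `(P k).map a ≤ P (k + 1)`; `u i x ∈ P i`; `u (i + 1) x - a^i (b x) ∈ P i`
(`u (i + 2) x - a^(i + 1) (b x) = u i x + a (u (i + 1) x - a^i (b x))`).
Independence: `a^k (b z) ∈ P k` implies `z = 0`: for `k = 0` by hypothesis; for `k + 1`:
`a^(k+1) (b z) = b y + a q`, `q ∈ P k`, gives `a (a^k (b z) - q) + b (-y) = 0`, so
`a^k (b z) = q ∈ P k`.
Now if `(Φ c).1 = 0` then `c = 0`: otherwise let `k` be the maximum of the support;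
`0 = ∑ i ≤ k, u (i + 1) (c i)` and `u (i + 1) (c i) ∈ P (i + 1) ≤ P k` for `i < k`, so
`u (k + 1) (c k) ∈ P k`, `a^k (b (c k)) ∈ P k`, `c k = 0`, a contradiction. So if
`(0, b x) = Φ c ∈ N`, then `c = 0`, `b x = 0`, `x = 0`.
-/

namespace Pool.Agent.Helper29.NA

section

variable {E : Type*} [AddCommGroup E]

private def modU (a b : E →+ E) : ℕ → (E →+ E)
  | 0 => 0
  | 1 => b
  | (i + 2) => modU a b i + a.comp (modU a b (i + 1))

private theorem modU_zero (a b : E →+ E) (x : E) : modU a b 0 x = 0 := rfl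

private theorem modU_one (a b : E →+ E) (x : E) : modU a b 1 x = b x := rfl

private theorem modU_succ (a b : E →+ E) (i : ℕ) (x : E) :
    modU a b (i + 2) x = modU a b i x + a (modU a b (i + 1) x) := rfl

private theorem modU_comm (a b f : E →+ E) (ha : ∀ x, a (f x) = f (a x))
    (hb : ∀ x, b (f x) = f (b x)) (i : ℕ) :
    (∀ x, f (modU a b i x) = modU a b i (f x)) ∧
      ∀ x, f (modU a b (i + 1) x) = modU a b (i + 1) (f x) := by
  induction i with
  | zero =>
    refine ⟨fun x => ?_, fun x => (hb x).symm⟩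
    rw [modU_zero, modU_zero, map_zero]
  | succ i ih =>
    refine ⟨ih.2, fun x => ?_⟩
    rw [modU_succ, modU_succ, map_add, ih.1, ← ha, ih.2]

private def modP (a b : E →+ E) : ℕ → AddSubgroup E
  | 0 => ⊥
  | (k + 1) => b.range ⊔ (modP a b k).map a

private theorem modP_succ (a b : E →+ E) (k : ℕ) :
    modP a b (k + 1) = b.range ⊔ (modP a b k).map a := rfl

private theorem modP_le (a b : E →+ E) (k : ℕ) : modP a b k ≤ modP a b (k + 1) := by
  induction k with
  | zero => exact bot_le
  | succ k ih =>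
    rw [modP_succ, modP_succ a b (k + 1)]
    exact sup_le_sup_left (AddSubgroup.map_mono ih) _

private theorem modP_mono (a b : E →+ E) : Monotone (modP a b) :=
  monotone_nat_of_le_succ (modP_le a b)

private theorem modP_map (a b : E →+ E) {k : ℕ} {x : E} (hx : x ∈ modP a b k) :
    a x ∈ modP a b (k + 1) := by
  rw [modP_succ]
  exact AddSubgroup.mem_sup_right (AddSubgroup.mem_map_of_mem a hx)

private theorem modU_mem (a b : E →+ E) (i : ℕ) :
    (∀ x, modU a b i x ∈ modP a b i) ∧ ∀ x, modU a b (i + 1) x ∈ modP a b (i + 1) := by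
  induction i with
  | zero =>
    refine ⟨fun x => zero_mem _, fun x => ?_⟩
    rw [modP_succ]
    exact AddSubgroup.mem_sup_left ⟨x, rfl⟩
  | succ i ih =>
    refine ⟨ih.2, fun x => ?_⟩
    rw [modU_succ]
    exact add_mem (modP_mono a b (by omega : i ≤ i + 1 + 1) (ih.1 x)) (modP_map a b (ih.2 x))

private theorem modU_sub (a b : E →+ E) (i : ℕ) (x : E) :
    modU a b (i + 1) x - a^[i] (b x) ∈ modP a b i := by
  induction i with
  | zero =>
    rw [modU_one, Function.iterate_zero_apply, sub_self]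
    exact zero_mem _
  | succ i ih =>
    have h1 : modU a b (i + 1 + 1) x - a^[i + 1] (b x) =
        modU a b i x + a (modU a b (i + 1) x - a^[i] (b x)) := by
      rw [modU_succ, Function.iterate_succ_apply', map_sub]
      abel
    rw [h1]
    exact add_mem (modP_le a b i ((modU_mem a b i).1 x)) (modP_map a b ih)

private theorem modP_ind (a b : E →+ E) (h : ∀ x y, a x + b y = 0 → x = 0 ∧ y = 0) (k : ℕ)
    (z : E) (hz : a^[k] (b z) ∈ modP a b k) : z = 0 := by
  induction k with
  | zero =>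
    refine (h 0 z ?_).2
    rw [map_zero, zero_add]
    exact AddSubgroup.mem_bot.1 hz
  | succ k ih =>
    rw [modP_succ, AddSubgroup.mem_sup] at hz
    obtain ⟨_, ⟨y, rfl⟩, _, ⟨q, hq, rfl⟩, h1⟩ := hz
    rw [Function.iterate_succ_apply'] at h1
    have h2 : a (a^[k] (b z) - q) + b (-y) = 0 := by
      rw [map_sub, map_neg, ← h1]
      abel
    apply ih
    rw [sub_eq_zero.1 (h _ _ h2).1]
    exact hq

private noncomputable def modPhi (a b : E →+ E) : (ℕ →₀ E) →+ E × E :=
  Finsupp.liftAddHom fun i => (modU a b (i + 1)).prod (modU a b (i + 2))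

private theorem modPhi_single (a b : E →+ E) (i : ℕ) (x : E) :
    modPhi a b (Finsupp.single i x) = (modU a b (i + 1) x, modU a b (i + 2) x) := by
  rw [modPhi, Finsupp.liftAddHom_apply_single]
  rfl

private theorem modPhi_inj (a b : E →+ E) (h : ∀ x y, a x + b y = 0 → x = 0 ∧ y = 0)
    (c : ℕ →₀ E) (hc : (modPhi a b c).1 = 0) : c = 0 := by
  classical
  by_contra hne
  have hs : c.support.Nonempty := Finsupp.support_nonempty_iff.2 hne
  obtain ⟨k, hk⟩ : ∃ k, k = c.support.max' hs := ⟨_, rfl⟩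
  have hk1 : k ∈ c.support := by rw [hk]; exact Finset.max'_mem _ _
  have h1 : (modPhi a b c).1 = ∑ i ∈ c.support, modU a b (i + 1) (c i) := by
    rw [modPhi, Finsupp.liftAddHom_apply, Finsupp.sum, Prod.fst_sum]
    rfl
  rw [h1, ← Finset.add_sum_erase _ _ hk1] at hc
  have h2 : ∑ i ∈ c.support.erase k, modU a b (i + 1) (c i) ∈ modP a b k := by
    refine sum_mem fun i hi => ?_
    have h3 : i < k := by
      refine lt_of_le_of_ne ?_ (Finset.ne_of_mem_erase hi)
      rw [hk]
      exact Finset.le_max' _ _ (Finset.mem_of_mem_erase hi)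
    exact modP_mono a b (by omega : i + 1 ≤ k) ((modU_mem a b (i + 1)).1 (c i))
  have h4 : modU a b (k + 1) (c k) ∈ modP a b k := by
    rw [eq_neg_of_add_eq_zero_left hc]
    exact neg_mem h2
  have h5 : a^[k] (b (c k)) ∈ modP a b k := by
    have h6 := sub_mem h4 (modU_sub a b k (c k))
    rwa [sub_sub_cancel] at h6
  exact Finsupp.mem_support_iff.1 hk1 (modP_ind a b h k _ h5)

end

theorem exists_sub {E : Type*} [AddCommGroup E] (a b : E →+ E)
    (h : ∀ x y, a x + b y = 0 → x = 0 ∧ y = 0) :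
    ∃ N : AddSubgroup (E × E), (∀ z ∈ N, (z.2, z.1 + a z.2) ∈ N) ∧
      (∀ x, (b x, a (b x)) ∈ N) ∧ (∀ x, ((0 : E), b x) ∈ N → x = 0) ∧
      ∀ f : E →+ E, (∀ x, a (f x) = f (a x)) → (∀ x, b (f x) = f (b x)) →
        ∀ z ∈ N, (f z.1, f z.2) ∈ N := by
  refine ⟨(modPhi a b).range, ?_, ?_, ?_, ?_⟩
  · rintro _ ⟨c, rfl⟩
    induction c using Finsupp.induction_linear with
    | zero =>
      refine ⟨0, ?_⟩
      rw [map_zero]
      refine Prod.ext ?_ ?_ <;> simp
    | add c d hc hd =>
      have h1 := add_mem hc hd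
      rw [Prod.mk_add_mk] at h1
      rw [map_add, Prod.fst_add, Prod.snd_add, map_add]
      convert h1 using 2
      abel
    | single i x =>
      refine ⟨Finsupp.single (i + 1) x, ?_⟩
      rw [modPhi_single, modPhi_single, modU_succ a b (i + 1)]
  · intro x
    refine ⟨Finsupp.single 0 x, ?_⟩
    rw [modPhi_single, modU_succ, modU_one, modU_zero, zero_add]
  · rintro x ⟨c, hc⟩
    have h1 : c = 0 := modPhi_inj a b h c (by rw [hc])
    rw [h1, map_zero] at hc
    refine (h 0 x ?_).2
    rw [map_zero, zero_add]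
    exact (congrArg Prod.snd hc).symm
  · rintro f ha hb _ ⟨c, rfl⟩
    induction c using Finsupp.induction_linear with
    | zero =>
      refine ⟨0, ?_⟩
      rw [map_zero]
      refine Prod.ext ?_ ?_ <;> simp
    | add c d hc hd =>
      have h1 := add_mem hc hd
      rw [Prod.mk_add_mk] at h1
      rw [map_add, Prod.fst_add, Prod.snd_add, map_add, map_add]
      exact h1
    | single i x =>
      refine ⟨Finsupp.single i (f x), ?_⟩
      rw [modPhi_single, modPhi_single, (modU_comm a b f ha hb (i + 1)).1,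
        (modU_comm a b f ha hb (i + 1)).2]

end Pool.Agent.Helper29.NA
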