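import Pool.Agent.Helper29.NA.Pow
import Pool.Agent.Helper29.NA.Amp
import Pool.Agent.Helper29.NA.Mod
import Pool.Agent.Helper29.NA.Grp
import Pool.Agent.Helper29.NA.LawA
import Pool.Agent.Helper29.NA.LawB

/-!
# Finitely generated non-Hopfian groups from non-amenable groups
-/

namespace Pool.Agent.Helper29.NA

open Function Pool.Agent.Helper32.SmallVar Pool.Agent.Helper13.PV

universe u

variable {L LU LW : Set (FreeGroup ℕ)}

theorem lt_single {Q : Type u} {V : Type*} [Group Q] [AddCommGroup V] (g : Q) (v : V) :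
    lt Q V g (Finsupp.single 1 v) = Finsupp.single g v := by
  classical
  ext x
  rw [lt_apply, Finsupp.single_apply, Finsupp.single_apply]
  have : (1 = g⁻¹ * x) ↔ (g = x) := by
    rw [eq_comm, inv_mul_eq_one]
  simp only [this]

theorem fg_lt2 {Q : Type u} {V : Type u} [Group Q] [AddCommGroup V] [Finite V]
    (hQ : Group.FG Q) : Group.FG (Sd (lt2 Q V)) := by
  refine fg_sd (lt2 Q V) hQ ((Set.range fun v : V => ((Finsupp.single 1 v : Q →₀ V), (0 : Q →₀ V)))
    ∪ Set.range fun v : V => ((0 : Q →₀ V), (Finsupp.single 1 v : Q →₀ V)))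
    ((Set.finite_range _).union (Set.finite_range _)) ?_
  set K := AddSubgroup.closure {m : (Q →₀ V) × (Q →₀ V) | ∃ g, ∃ x ∈
    ((Set.range fun v : V => ((Finsupp.single 1 v : Q →₀ V), (0 : Q →₀ V)))
    ∪ Set.range fun v : V => ((0 : Q →₀ V), (Finsupp.single 1 v : Q →₀ V))), m = lt2 Q V g x}
    with hK
  have h1 : ∀ f : Q →₀ V, ((f, 0) : (Q →₀ V) × (Q →₀ V)) ∈ K := by
    intro f
    induction f using Finsupp.induction_linear with
    | zero => exact K.zero_mem
    | add f g hf hg =>
      have := K.add_mem hf hg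
      rwa [Prod.mk_add_mk, add_zero] at this
    | single g v =>
      apply AddSubgroup.subset_closure
      refine ⟨g, _, Or.inl ⟨v, rfl⟩, ?_⟩
      show _ = (lt Q V g (Finsupp.single 1 v), lt Q V g 0)
      rw [lt_single, map_zero]
  have h2 : ∀ f : Q →₀ V, ((0, f) : (Q →₀ V) × (Q →₀ V)) ∈ K := by
    intro f
    induction f using Finsupp.induction_linear with
    | zero => exact K.zero_mem
    | add f g hf hg =>
      have := K.add_mem hf hg
      rwa [Prod.mk_add_mk, add_zero] at this
    | single g v =>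
      apply AddSubgroup.subset_closure
      refine ⟨g, _, Or.inr ⟨v, rfl⟩, ?_⟩
      show _ = (lt Q V g 0, lt Q V g (Finsupp.single 1 v))
      rw [lt_single, map_zero]
  rw [eq_top_iff]
  rintro ⟨x, y⟩ -
  have := K.add_mem (h1 x) (h2 y)
  rwa [Prod.mk_add_mk, add_zero, zero_add] at this

/-- The core: if the wreath product of a group of prime order with a non-amenable group satisfies
the laws `L`, then some finitely generated non-Hopfian group satisfies them. -/
theorem core {G : Type} [Group G] (hG : ¬ HasMean G) (p : ℕ) [Fact p.Prime]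
    (hL : SatisfiesLaws L (Sd (lt G (ZMod p)))) :
    ∃ (H : Type) (_ : Group H), Group.FG H ∧ SatisfiesLaws L H ∧ ¬ IsHopfian H := by
  obtain ⟨Q, hQ, S, C, hC, hS⟩ := exists_subgroup hG
  obtain ⟨V, _, _, _, _, a, b, ha, hb, hab⟩ := exists_pair S hC hS p
  obtain ⟨N, h1, h2, h3, h4⟩ := exists_sub a b hab
  have hL2 : SatisfiesLaws L (Sd (lt2 Q V)) := laws_two (laws_vec p (laws_sub Q hL))
  obtain ⟨v, hv⟩ := exists_ne (0 : V)
  let t : (Q →₀ V) × (Q →₀ V) →+ (Q →₀ V) × (Q →₀ V) :=
    { toFun := fun z => (z.2, z.1 + a z.2)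
      map_zero' := by simp
      map_add' := fun z w => by
        apply Prod.ext
        · simp
        · simp only [Prod.snd_add, Prod.fst_add, map_add]
          abel }
  have hsv : (Finsupp.single 1 v : Q →₀ V) ≠ 0 := by
    simpa using hv
  refine exists_nonHopfian (lt2 Q V) (fg_lt2 hQ) t ?_ ?_ N ?_ h1
    (0, b (Finsupp.single 1 v)) (fun h => hsv (h3 _ h)) ?_ L hL2
  · rintro ⟨x, y⟩
    refine ⟨(y - a x, x), ?_⟩
    show (x, y - a x + a x) = (x, y)
    rw [sub_add_cancel]
  · rintro g ⟨x, y⟩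
    show (lt Q V g y, lt Q V g x + a (lt Q V g y)) = (lt Q V g y, lt Q V g (x + a y))
    rw [ha, map_add]
  · intro g m hm
    exact h4 (lt Q V g) (fun x => ha g x) (fun x => hb g x) m hm
  · have := h2 (Finsupp.single 1 v)
    show (b (Finsupp.single 1 v), 0 + a (b (Finsupp.single 1 v))) ∈ N
    rwa [zero_add]

/-- Wreath products with non-amenable groups. -/
theorem wreath {A G : Type} [Group A] [Group G] [Nontrivial A] (hG : ¬ HasMean G)
    (hL : SatisfiesLaws L (restrictedWreath A G)) :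
    ∃ (H : Type) (_ : Group H), Group.FG H ∧ SatisfiesLaws L H ∧ ¬ IsHopfian H := by
  obtain ⟨a, ha⟩ := exists_ne (1 : A)
  have h1 : orderOf a ≠ 1 := fun h => ha (orderOf_eq_one_iff.mp h)
  obtain ⟨p, hp, hpa⟩ := Nat.exists_prime_and_dvd h1
  haveI : Fact p.Prime := ⟨hp⟩
  refine core hG p (laws_quot (ZMod.castHom hpa (ZMod p)).toAddMonoidHom ?_ (laws_wr a hL))
  exact ZMod.castHom_surjective hpa

/-- Product varieties. -/
theorem product {A G : Type} [Group A] [Group G] [Nontrivial A] (hG : ¬ HasMean G)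
    (hA : SatisfiesLaws LU A) (hW : SatisfiesLaws LW G)
    (hL : ∀ (X : Type) [Group X], InProduct LU LW X → SatisfiesLaws L X) :
    ∃ (H : Type) (_ : Group H), Group.FG H ∧ SatisfiesLaws L H ∧ ¬ IsHopfian H := by
  obtain ⟨p, hp, hpU⟩ := laws_cyc hA
  haveI : Fact p.Prime := ⟨hp⟩
  exact core hG p (hL _ (inProduct_sd hpU hW))

end Pool.Agent.Helper29.NA
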