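import Pool.Agent.Helper29.NA.Defs

/-!
# Double counting in an expanding group

Proof of `exists_dense`. For `g` in `F S` let `T g = {t ∈ S | g t⁻¹ ∈ F}`. The sum over `f ∈ F` of
the sums on the right is the sum over pairs `(f, s) ∈ F × S` of `1 / |T (f s)|`; grouping the pairs
by the product `g = f s` (the fibre over `g` is in bijection with `T g`, `|T g| ≥ 1`) it is
`|F S| ≥ C |F|`. So some `f ∈ F` has sum `≥ C`.
-/

namespace Pool.Agent.Helper29.NA

open Function
open scoped ENNReal Pointwise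

universe u v

open Classical in
theorem exists_dense {G : Type u} [Group G] (S F : Finset G) (hF : F.Nonempty) {C : ℝ}
    (hS : Expands S C) :
    ∃ f ∈ F, C ≤ ∑ s : S,
      (1 : ℝ) / (Finset.univ.filter fun t : S => f * s * (t : G)⁻¹ ∈ F).card := by
  by_contra hcon
  push Not at hcon
  set N : G → ℕ := fun g => (Finset.univ.filter fun t : S => g * (t : G)⁻¹ ∈ F).card with hN
  have h1 : ∑ f ∈ F, ∑ s : S, (1 : ℝ) / (N (f * s) : ℝ) < ∑ _f ∈ F, C :=
    Finset.sum_lt_sum_of_nonempty hF fun f hf => hcon f hf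
  have h2 : ∑ f ∈ F, ∑ s : S, (1 : ℝ) / (N (f * s) : ℝ) =
      ∑ p ∈ F ×ˢ (Finset.univ : Finset S), (1 : ℝ) / (N (p.1 * p.2) : ℝ) :=
    (Finset.sum_product F Finset.univ fun p : G × S => (1 : ℝ) / (N (p.1 * p.2) : ℝ)).symm
  have hmap : ∀ p ∈ F ×ˢ (Finset.univ : Finset S), p.1 * (p.2 : G) ∈ F * S := fun p hp =>
    Finset.mul_mem_mul (Finset.mem_product.1 hp).1 p.2.2
  have h3 := Finset.sum_fiberwise_of_maps_to hmap
    fun p : G × S => (1 : ℝ) / (N (p.1 * p.2) : ℝ)
  have h4 : ∀ g ∈ F * S, ∑ p ∈ (F ×ˢ (Finset.univ : Finset S)).filter (fun p => p.1 * (p.2 : G) = g),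
      (1 : ℝ) / (N (p.1 * p.2) : ℝ) = 1 := by
    intro g hg
    have h5 : ((F ×ˢ (Finset.univ : Finset S)).filter fun p => p.1 * (p.2 : G) = g).card = N g := by
      refine Finset.card_bij (fun p _ => p.2) ?_ ?_ ?_
      · intro p hp
        obtain ⟨hp1, hp2⟩ := Finset.mem_filter.1 hp
        refine Finset.mem_filter.2 ⟨Finset.mem_univ _, ?_⟩
        rw [← hp2, mul_inv_cancel_right]
        exact (Finset.mem_product.1 hp1).1
      · intro p hp q hq hpq
        obtain ⟨_, hp2⟩ := Finset.mem_filter.1 hp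
        obtain ⟨_, hq2⟩ := Finset.mem_filter.1 hq
        refine Prod.ext ?_ hpq
        rw [← hq2, hpq] at hp2
        exact mul_right_cancel hp2
      · intro t ht
        refine ⟨(g * (t : G)⁻¹, t), ?_, rfl⟩
        refine Finset.mem_filter.2 ⟨Finset.mem_product.2 ⟨(Finset.mem_filter.1 ht).2,
          Finset.mem_univ _⟩, ?_⟩
        rw [inv_mul_cancel_right]
    have h6 : 0 < N g := by
      obtain ⟨a, ha, b, hb, hab⟩ := Finset.mem_mul.1 hg
      refine Finset.card_pos.2 ⟨⟨b, hb⟩, Finset.mem_filter.2 ⟨Finset.mem_univ _, ?_⟩⟩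
      rw [← hab, mul_inv_cancel_right]
      exact ha
    have h7 : ∀ p ∈ (F ×ˢ (Finset.univ : Finset S)).filter (fun p => p.1 * (p.2 : G) = g),
        (1 : ℝ) / (N (p.1 * p.2) : ℝ) = 1 / (N g : ℝ) := by
      intro p hp
      rw [(Finset.mem_filter.1 hp).2]
    rw [Finset.sum_congr rfl h7, Finset.sum_const, h5, nsmul_eq_mul, mul_one_div,
      div_self (Nat.cast_ne_zero.2 h6.ne')]
  rw [Finset.sum_congr rfl h4, Finset.sum_const, nsmul_eq_mul, mul_one] at h3
  have h8 := hS F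
  rw [← Finset.coe_mul, Set.ncard_coe_finset] at h8
  rw [h2, ← h3, Finset.sum_const, nsmul_eq_mul, mul_comm] at h1
  exact absurd h8 (not_le.2 h1)

end Pool.Agent.Helper29.NA
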