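import Pool.Agent.Helper13.PV.Defs
import Mathlib

/-!
# Non-amenable groups and wreath products: definitions
-/

namespace Pool.Agent.Helper29.NA

open Function
open scoped ENNReal Pointwise

universe u v

/-- There is a finitely additive probability measure on all subsets of `G`, invariant under left
translations: `G` is an amenable group. -/
def HasMean (G : Type u) [Group G] : Prop :=
  ∃ m : Set G → ℝ≥0∞, m Set.univ = 1 ∧ (∀ s t, Disjoint s t → m (s ∪ t) = m s + m t) ∧
    ∀ (g : G) (s : Set G), m (g • s) = m s

/-- The restricted wreath product: the pairs in the regular wreath product whose first component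
has finite support. -/
def restrictedWreath (A G : Type u) [Group A] [Group G] :
    Subgroup (RegularWreathProduct A G) where
  carrier := {x | (mulSupport x.left).Finite}
  mul_mem' := by
    intro x y hx hy
    rw [Set.mem_ofPred_eq, RegularWreathProduct.mul_left]
    have hy2 : (mulSupport fun z => y.left (x.right⁻¹ * z)).Finite := by
      refine (hy.image (x.right * ·)).subset ?_
      intro z hz
      exact ⟨x.right⁻¹ * z, hz, by simp⟩
    exact (hx.union hy2).subset (mulSupport_mul _ _)
  one_mem' := by simp
  inv_mem' := by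
    intro x hx
    rw [Set.mem_ofPred_eq, RegularWreathProduct.inv_left]
    refine (hx.image (x.right⁻¹ * ·)).subset ?_
    intro z hz
    refine ⟨x.right * z, ?_, by simp⟩
    simpa [mulSupport] using hz

/-- Right multiplication by the finite set `S` multiplies the size of finite sets by at least
`C`. -/
def Expands {G : Type u} [Group G] (S : Finset G) (C : ℝ) : Prop :=
  ∀ F : Finset G, C * F.card ≤ (Set.ncard ((F : Set G) * (S : Set G)) : ℝ)

/-- The semidirect product of an abelian group, written additively, with `G`. -/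
structure Sd {M : Type u} {G : Type v} [AddCommGroup M] [Group G] (ρ : G →* AddMonoid.End M) where
  /-- the component in the module -/
  m : M
  /-- the component in the group -/
  g : G

namespace Sd

variable {M : Type u} {G : Type v} [AddCommGroup M] [Group G] {ρ : G →* AddMonoid.End M}

@[ext] theorem ext' {x y : Sd ρ} (h1 : x.m = y.m) (h2 : x.g = y.g) : x = y := by
  cases x; cases y; cases h1; cases h2; rfl

instance : Mul (Sd ρ) := ⟨fun x y => ⟨x.m + ρ x.g y.m, x.g * y.g⟩⟩
instance : One (Sd ρ) := ⟨⟨0, 1⟩⟩
instance : Inv (Sd ρ) := ⟨fun x => ⟨-(ρ x.g⁻¹ x.m), x.g⁻¹⟩⟩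

@[simp] theorem mul_m (x y : Sd ρ) : (x * y).m = x.m + ρ x.g y.m := rfl
@[simp] theorem mul_g (x y : Sd ρ) : (x * y).g = x.g * y.g := rfl
@[simp] theorem one_m : (1 : Sd ρ).m = 0 := rfl
@[simp] theorem one_g : (1 : Sd ρ).g = 1 := rfl
@[simp] theorem inv_m (x : Sd ρ) : (x⁻¹).m = -(ρ x.g⁻¹ x.m) := rfl
@[simp] theorem inv_g (x : Sd ρ) : (x⁻¹).g = x.g⁻¹ := rfl

theorem rho_mul (x y : G) (m : M) : ρ (x * y) m = ρ x (ρ y m) := by
  rw [map_mul]; rfl

theorem rho_one (m : M) : ρ 1 m = m := by
  rw [map_one]; rfl

theorem rho_inv (x : G) (m : M) : ρ x (ρ x⁻¹ m) = m := by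
  rw [← rho_mul, mul_inv_cancel, rho_one]

theorem inv_rho (x : G) (m : M) : ρ x⁻¹ (ρ x m) = m := by
  rw [← rho_mul, inv_mul_cancel, rho_one]

instance : Group (Sd ρ) where
  mul_assoc x y z := by
    apply ext'
    · simp [add_assoc]
    · simp [mul_assoc]
  one_mul x := by apply ext' <;> simp
  mul_one x := by apply ext' <;> simp
  inv_mul_cancel x := by apply ext' <;> simp

/-- Equivariant maps induce homomorphisms of semidirect products. -/
def map {M' : Type*} {G' : Type*} [AddCommGroup M'] [Group G'] {ρ' : G' →* AddMonoid.End M'}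
    (f : M →+ M') (φ : G →* G') (h : ∀ g m, f (ρ g m) = ρ' (φ g) (f m)) : Sd ρ →* Sd ρ' where
  toFun x := ⟨f x.m, φ x.g⟩
  map_one' := by apply ext' <;> simp
  map_mul' x y := by apply ext' <;> simp [h]

end Sd

/-- The left translation action of `G` on finitely supported functions. -/
noncomputable def lt (G : Type u) (V : Type v) [Group G] [AddCommGroup V] :
    G →* AddMonoid.End (G →₀ V) where
  toFun g :=
    { toFun := fun f => f.equivMapDomain (Equiv.mulLeft g)
      map_zero' := by ext x; simp
      map_add' := fun f f' => by ext x; simp }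
  map_one' := by
    refine DFunLike.ext _ _ fun f => ?_
    ext x
    show f ((1 : G)⁻¹ * x) = f x
    simp
  map_mul' g h := by
    refine DFunLike.ext _ _ fun f => ?_
    ext x
    show f ((g * h)⁻¹ * x) = f (h⁻¹ * (g⁻¹ * x))
    simp [mul_assoc]

@[simp] theorem lt_apply {G : Type u} {V : Type v} [Group G] [AddCommGroup V] (g : G) (f : G →₀ V)
    (x : G) : lt G V g f x = f (g⁻¹ * x) := by
  rfl

end Pool.Agent.Helper29.NA
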