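import Mathlib

/-!
# The sizes of the levels

Proofs. For `1 ≤ a ≤ d`: `a ≤ lev d R j` iff `a ≤ R / (j + 1)` iff `a (j + 1) ≤ R` iff
`j + 1 ≤ R / a`, and `R / a ≤ R`. `sum_lev`: `n = ∑ a ∈ range d, [a + 1 ≤ n]` for `n ≤ d`, exchange
the sums. `sum_lev_le`: `R / (a + 1)` (in `ℕ`) is at most the real quotient, `harmonic d = ∑ i ∈
range d, (i + 1)⁻¹`.
-/

namespace Pool.Agent.Helper29.NA

/-- The size of the level `j`. -/
def lev (d R : ℕ) (j : Fin R) : ℕ := min d (R / (j + 1))

theorem card_lev {d R a : ℕ} (h1 : 1 ≤ a) (h2 : a ≤ d) :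
    (Finset.univ.filter fun j : Fin R => a ≤ lev d R j).card = R / a := by
  have hle : R / a ≤ R := Nat.div_le_self R a
  have h : ∀ j : Fin R, a ≤ lev d R j ↔ (j : ℕ) < R / a := by
    intro j
    unfold lev
    rw [le_min_iff, Nat.le_div_iff_mul_le (Nat.succ_pos _)]
    constructor
    · rintro ⟨-, h3⟩
      have h4 : (j : ℕ) + 1 ≤ R / a := by
        rw [Nat.le_div_iff_mul_le (by omega), mul_comm]
        exact h3
      omega
    · intro h3
      refine ⟨h2, ?_⟩
      have h4 : (j : ℕ) + 1 ≤ R / a := h3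
      rw [Nat.le_div_iff_mul_le (by omega), mul_comm] at h4
      exact h4
  have e : (Finset.univ.filter fun j : Fin R => a ≤ lev d R j) =
      (Finset.univ : Finset (Fin (R / a))).map (Fin.castLEEmb hle) := by
    ext j
    simp only [Finset.mem_filter, Finset.mem_univ, true_and, Finset.mem_map]
    rw [h]
    constructor
    · intro h5
      exact ⟨⟨j, h5⟩, by ext; simp⟩
    · rintro ⟨i, rfl⟩
      simp
  rw [e, Finset.card_map, Finset.card_univ, Fintype.card_fin]

theorem sum_lev (d R : ℕ) :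
    ∑ j : Fin R, lev d R j = ∑ a ∈ Finset.range d, R / (a + 1) := by
  have h1 : ∀ j : Fin R, lev d R j = ∑ a ∈ Finset.range d, if a + 1 ≤ lev d R j then 1 else 0 := by
    intro j
    have hle : lev d R j ≤ d := min_le_left _ _
    rw [← Finset.card_filter]
    have e : (Finset.range d).filter (fun a => a + 1 ≤ lev d R j) = Finset.range (lev d R j) := by
      ext a
      simp only [Finset.mem_filter, Finset.mem_range]
      omega
    rw [e, Finset.card_range]
  rw [Finset.sum_congr rfl fun j _ => h1 j, Finset.sum_comm]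
  refine Finset.sum_congr rfl fun a ha => ?_
  rw [Finset.mem_range] at ha
  rw [← Finset.card_filter]
  exact card_lev (by omega) (by omega)

theorem sum_lev_le (d R : ℕ) :
    ((∑ j : Fin R, lev d R j : ℕ) : ℝ) ≤ R * (harmonic d : ℝ) := by
  rw [sum_lev, harmonic]
  push_cast
  rw [Finset.mul_sum]
  refine Finset.sum_le_sum fun a _ => ?_
  have h := @Nat.cast_div_le ℝ _ _ _ R (a + 1)
  push_cast at h
  rwa [div_eq_mul_inv] at h

end Pool.Agent.Helper29.NA
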