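import Pool.Agent.Helper29.NA.Level

/-!
# Two steps for the linear maps

`vandermonde_finset`: number `c` by `Fin c.card` (`Finset.equivFin` or `Finset.orderIsoOfFin`-like
bijection) and use `Matrix.eq_zero_of_forall_pow_sum_mul_pow_eq_zero`.
`card_pairs`: the number of pairs is `∑ s, R / a s` (sum over the first component of the fibre
cardinalities, `card_lev`), each natural quotient is at least the real quotient minus `1`.
-/

namespace Pool.Agent.Helper29.NA

open Function Polynomial

universe u v

/-- The interpolation step: a system of vectors `v t`, `t ∈ c`, with vanishing moments. -/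
theorem vandermonde_finset {K : Type*} [Field K] {ι : Type*} (c : Finset ι) (β : ι → K)
    (hβ : Injective β) (v : ι → K) (h : ∀ i < c.card, ∑ t ∈ c, β t ^ i * v t = 0) :
    ∀ t ∈ c, v t = 0 := by
  classical
  have e : Fin c.card ≃ c := c.equivFin.symm
  have hf : Injective fun j : Fin c.card => β (e j) := fun i j hij =>
    e.injective (Subtype.ext (hβ hij))
  have h1 : (fun j : Fin c.card => v (e j)) = 0 := by
    refine Matrix.eq_zero_of_forall_pow_sum_mul_pow_eq_zero hf ?_
    intro i
    have h2 := h i i.2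
    rw [← Finset.sum_coe_sort c fun t => β t ^ (i : ℕ) * v t] at h2
    rw [← h2, ← e.sum_comp]
    exact Finset.sum_congr rfl fun j _ => mul_comm _ _
  intro t ht
  have h3 := congrFun h1 (e.symm ⟨t, ht⟩)
  simpa using h3

/-- There are more than enough pairs. -/
theorem card_pairs {ι : Type*} [Fintype ι] (R : ℕ) {C : ℝ} (a : ι → ℕ) (h1 : ∀ s, 1 ≤ a s)
    (h2 : ∀ s, a s ≤ Fintype.card ι) (hC : C ≤ ∑ s, (1 : ℝ) / a s) :
    (R : ℝ) * C - Fintype.card ι ≤ ((Finset.univ.filter fun x : ι × Fin R =>
      a x.1 ≤ lev (Fintype.card ι) R x.2).card : ℝ) := by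
  classical
  have h3 : (Finset.univ.filter fun x : ι × Fin R =>
      a x.1 ≤ lev (Fintype.card ι) R x.2).card = ∑ s, R / a s := by
    rw [Finset.card_filter, ← Finset.univ_product_univ, Finset.sum_product]
    refine Finset.sum_congr rfl fun s _ => ?_
    rw [← card_lev (h1 s) (h2 s), Finset.card_filter]
  rw [h3]
  push_cast
  have h4 : ∀ s, (R : ℝ) * (1 / a s) - 1 ≤ ((R / a s : ℕ) : ℝ) := by
    intro s
    have h5 : (0 : ℝ) < a s := by
      have := h1 s
      exact_mod_cast this
    have h6 : (R : ℝ) / a s < (R / a s : ℕ) + 1 := by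
      rw [div_lt_iff₀ h5]
      have h7 : R < (R / a s + 1) * a s := by
        have := Nat.lt_div_mul_add (a := R) (h1 s)
        rw [add_mul, one_mul]
        exact this
      exact_mod_cast h7
    rw [mul_one_div]
    linarith
  calc (R : ℝ) * C - Fintype.card ι ≤ R * ∑ s, (1 : ℝ) / a s - Fintype.card ι := by
        have : (R : ℝ) * C ≤ R * ∑ s, (1 : ℝ) / a s :=
          mul_le_mul_of_nonneg_left hC (Nat.cast_nonneg R)
        linarith
    _ = ∑ s : ι, ((R : ℝ) * (1 / a s) - 1) := by
        rw [Finset.sum_sub_distrib, Finset.mul_sum, Finset.sum_const, Finset.card_univ,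
          nsmul_eq_mul, mul_one]
    _ ≤ ∑ s, ((R / a s : ℕ) : ℝ) := Finset.sum_le_sum fun s _ => h4 s

end Pool.Agent.Helper29.NA
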