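import Pool.Agent.Helper29.NA.Defs

/-!
# A group without invariant mean has an expanding finite set

Proof. Suppose no pair `(S, C)` with `C > 1` works. Index set `I = Finset G × ℕ` (directed, filter
`atTop`). For `i = (S, n)` take `S' = insert 1 S` and `C = 1 + 1 / (n + 1)`: there is a finite `F i`
with `|F S'| < C |F|` (so `F` is nonempty). Since `1 ∈ S'`, `F ⊆ F S'`, and `F g ⊆ F S'` for
`g ∈ S`; both have `|F|` elements, so `|(F g) ∆ F| ≤ 2 (|F S'| - |F|) ≤ 2 |F| / (n + 1)`.
Put `F' i = (F i)⁻¹`; then `g⁻¹ • F' = (F g)⁻¹`. So with the σ-algebra `⊤` on `G` and the counting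
measure, `IsFoelner G count atTop F'` (for fixed `g` consider the `i = (S, n)` with
`{g⁻¹} ⊆ S`, which are eventually all). Then `IsFoelner.amenable` of
`Mathlib/MeasureTheory/Group/FoelnerFilter.lean` gives the mean.
-/

namespace Pool.Agent.Helper29.NA

open Function
open scoped ENNReal Pointwise

universe u v

private theorem na1_card {G : Type u} [Group G] (F S : Finset G) (g : G) (h1 : (1 : G) ∈ S)
    (hg : g⁻¹ ∈ S) :
    (symmDiff (g • (F : Set G)⁻¹) ((F : Set G)⁻¹)).ncard + 2 * F.card ≤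
      2 * ((F : Set G) * (S : Set G)).ncard := by
  classical
  have hUf : ((F : Set G) * (S : Set G)).Finite := F.finite_toSet.mul S.finite_toSet
  have hUf' : (((F : Set G) * (S : Set G))⁻¹).Finite := hUf.inv
  have hKf : ((F : Set G)⁻¹).Finite := F.finite_toSet.inv
  have hUc : (((F : Set G) * (S : Set G))⁻¹).ncard = ((F : Set G) * (S : Set G)).ncard := by
    rw [← Set.image_inv_eq_inv, Set.ncard_image_of_injective _ inv_injective]
  have hKc : ((F : Set G)⁻¹).ncard = F.card := by
    rw [← Set.image_inv_eq_inv, Set.ncard_image_of_injective _ inv_injective, Set.ncard_coe_finset]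
  have hgK : (g • (F : Set G)⁻¹).ncard = F.card := by
    rw [← hKc, ← Set.image_smul, Set.ncard_image_of_injective _ (MulAction.injective g)]
  have hK : (F : Set G)⁻¹ ⊆ ((F : Set G) * (S : Set G))⁻¹ := by
    intro x hx
    rw [Set.mem_inv] at hx ⊢
    exact ⟨x⁻¹, hx, 1, h1, mul_one _⟩
  have hK2 : g • (F : Set G)⁻¹ ⊆ ((F : Set G) * (S : Set G))⁻¹ := by
    rintro _ ⟨x, hx, rfl⟩
    rw [Set.mem_inv] at hx ⊢
    refine ⟨x⁻¹, hx, g⁻¹, hg, ?_⟩
    simp
  have h2 : symmDiff (g • (F : Set G)⁻¹) ((F : Set G)⁻¹) ⊆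
      (((F : Set G) * (S : Set G))⁻¹ \ (F : Set G)⁻¹) ∪
        (((F : Set G) * (S : Set G))⁻¹ \ (g • (F : Set G)⁻¹)) := by
    rintro x (⟨hx1, hx2⟩ | ⟨hx1, hx2⟩)
    · exact Or.inl ⟨hK2 hx1, hx2⟩
    · exact Or.inr ⟨hK hx1, hx2⟩
  have h3 := Set.ncard_le_ncard h2 ((hUf'.subset Set.sdiff_subset).union
    (hUf'.subset Set.sdiff_subset))
  have h4 := Set.ncard_union_le (((F : Set G) * (S : Set G))⁻¹ \ (F : Set G)⁻¹)
    (((F : Set G) * (S : Set G))⁻¹ \ (g • (F : Set G)⁻¹))
  have h5 := Set.ncard_sdiff_add_ncard_of_subset hK hUf'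
  have h6 := Set.ncard_sdiff_add_ncard_of_subset hK2 hUf'
  omega

theorem exists_expands {G : Type u} [Group G] (h : ¬ HasMean G) :
    ∃ (S : Finset G) (C : ℝ), 1 < C ∧ Expands S C := by
  classical
  by_contra hcon
  push Not at hcon
  apply h
  have key : ∀ i : Finset G × ℕ, ∃ F : Finset G, 0 < F.card ∧
      (((F : Set G) * ((insert 1 i.1 : Finset G) : Set G)).ncard - F.card) * (i.2 + 1) ≤
        F.card := by
    rintro ⟨S, n⟩
    have hn : (0 : ℝ) < (n : ℝ) + 1 := by positivity
    have h1 := hcon (insert 1 S) (1 + 1 / ((n : ℝ) + 1)) (by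
      have : (0 : ℝ) < 1 / ((n : ℝ) + 1) := by positivity
      linarith)
    unfold Expands at h1
    push Not at h1
    obtain ⟨F, hF⟩ := h1
    refine ⟨F, ?_, ?_⟩
    · by_contra h0
      have h2 : F.card = 0 := by omega
      rw [h2] at hF
      have h3 : (0 : ℝ) ≤
        (((F : Set G) * ((insert 1 S : Finset G) : Set G)).ncard : ℝ) := Nat.cast_nonneg _
      rw [Nat.cast_zero, mul_zero] at hF
      linarith
    · obtain ⟨u, hu⟩ : ∃ u, u = ((F : Set G) * ((insert 1 S : Finset G) : Set G)).ncard :=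
        ⟨_, rfl⟩
      simp only
      rw [← hu] at hF ⊢
      rcases Nat.le_total u F.card with h2 | h2
      · rw [Nat.sub_eq_zero_of_le h2, zero_mul]
        exact Nat.zero_le _
      · have h3 : ((u - F.card : ℕ) : ℝ) * ((n : ℝ) + 1) ≤ F.card := by
          rw [Nat.cast_sub h2]
          have h4 : (u : ℝ) * ((n : ℝ) + 1) < (1 + 1 / ((n : ℝ) + 1)) * F.card * ((n : ℝ) + 1) :=
            mul_lt_mul_of_pos_right hF hn
          have h5 : (1 + 1 / ((n : ℝ) + 1)) * F.card * ((n : ℝ) + 1) =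
              (((n : ℝ) + 1) + 1) * F.card := by
            field_simp
          rw [h5] at h4
          nlinarith
        exact_mod_cast h3
  choose F hF0 hF using key
  let _ : MeasurableSpace G := ⊤
  have hms : ∀ s : Set G, MeasurableSet s := fun s => MeasurableSpace.measurableSet_top
  have : MeasureTheory.SMulInvariantMeasure G G MeasureTheory.Measure.count := by
    refine ⟨fun g s _ => ?_⟩
    rw [MeasureTheory.Measure.count_apply (hms _), MeasureTheory.Measure.count_apply (hms _)]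
    congr 1
    have h1 : (fun x => g • x) ⁻¹' s = (fun x => g⁻¹ • x) '' s := by
      ext x
      constructor
      · intro hx
        exact ⟨g • x, hx, inv_smul_smul g x⟩
      · rintro ⟨y, hy, rfl⟩
        show g • g⁻¹ • y ∈ s
        rw [smul_inv_smul]
        exact hy
    rw [h1]
    exact (MulAction.injective g⁻¹).encard_image s
  have hcount : ∀ s : Set G, s.Finite → MeasureTheory.Measure.count s = (s.ncard : ℝ≥0∞) := by
    intro s hs
    rw [MeasureTheory.Measure.count_apply (hms _), ← hs.cast_ncard_eq]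
    rfl
  have hKf : ∀ i, ((F i : Set G)⁻¹).Finite := fun i => (F i).finite_toSet.inv
  have hKc : ∀ i, MeasureTheory.Measure.count ((F i : Set G)⁻¹) = ((F i).card : ℝ≥0∞) := by
    intro i
    rw [hcount _ (hKf i), ← Set.image_inv_eq_inv, Set.ncard_image_of_injective _ inv_injective,
      Set.ncard_coe_finset]
  have hfo : IsFoelner G MeasureTheory.Measure.count Filter.atTop
      (fun i : Finset G × ℕ => (F i : Set G)⁻¹) := by
    refine ⟨Filter.Eventually.of_forall fun i => hms _, Filter.Eventually.of_forall fun i => ?_,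
      Filter.Eventually.of_forall fun i => ?_, fun g => ?_⟩
    · rw [hKc]
      have := hF0 i
      simp only [ne_eq, Nat.cast_eq_zero]
      omega
    · rw [hKc]
      exact ENNReal.natCast_ne_top _
    · have hlim : Filter.Tendsto (fun i : Finset G × ℕ => 2 * (((i.2 + 1 : ℕ) : ℝ≥0∞)⁻¹))
          Filter.atTop (nhds 0) := by
        have h1 : Filter.Tendsto (fun n : ℕ => (((n + 1 : ℕ) : ℝ≥0∞)⁻¹)) Filter.atTop (nhds 0) :=
          (Filter.tendsto_add_atTop_iff_nat 1).2 ENNReal.tendsto_inv_nat_nhds_zero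
        have h2 := ENNReal.Tendsto.const_mul (a := 2) h1 (Or.inr ENNReal.ofNat_ne_top)
        rw [mul_zero] at h2
        have h3 : Filter.Tendsto (fun i : Finset G × ℕ => i.2) Filter.atTop Filter.atTop := by
          rw [← Filter.prod_atTop_atTop_eq]
          exact Filter.tendsto_snd
        exact h2.comp h3
      refine tendsto_of_tendsto_of_tendsto_of_le_of_le' tendsto_const_nhds hlim
        (Filter.Eventually.of_forall fun i => zero_le) ?_
      refine Filter.eventually_atTop.2 ⟨({g⁻¹}, 0), ?_⟩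
      rintro ⟨S, n⟩ hi
      have hgS : g⁻¹ ∈ S := by
        have := hi.1
        exact this (Finset.mem_singleton_self _)
      have h1 := na1_card (F (S, n)) (insert 1 S) g (Finset.mem_insert_self _ _)
        (Finset.mem_insert_of_mem hgS)
      have h2 := hF (S, n)
      have h3 := hF0 (S, n)
      have hfin : (symmDiff (g • (F (S, n) : Set G)⁻¹) ((F (S, n) : Set G)⁻¹)).Finite :=
        ((hKf _).smul_set).symmDiff (hKf _)
      simp only at h2 ⊢
      rw [hKc, hcount _ hfin]
      obtain ⟨u, hu⟩ : ∃ u, u = ((F (S, n) : Set G) * ((insert 1 S : Finset G) : Set G)).ncard :=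
        ⟨_, rfl⟩
      rw [← hu] at h1 h2
      obtain ⟨d, hd⟩ : ∃ d, d = (symmDiff (g • (F (S, n) : Set G)⁻¹)
        ((F (S, n) : Set G)⁻¹)).ncard := ⟨_, rfl⟩
      rw [← hd] at h1 ⊢
      have h4 : d * (n + 1) ≤ 2 * (F (S, n)).card := by
        have h5 : d ≤ 2 * (u - (F (S, n)).card) := by omega
        calc d * (n + 1) ≤ 2 * (u - (F (S, n)).card) * (n + 1) := Nat.mul_le_mul_right _ h5
          _ = 2 * ((u - (F (S, n)).card) * (n + 1)) := by ring
          _ ≤ 2 * (F (S, n)).card := Nat.mul_le_mul_left _ h2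
      have h6 : (((n + 1 : ℕ) : ℝ≥0∞)) ≠ 0 := by simp
      have h7 : (((n + 1 : ℕ) : ℝ≥0∞)) ≠ ⊤ := ENNReal.natCast_ne_top _
      have h8 : ((F (S, n)).card : ℝ≥0∞) ≠ 0 := by
        simp only [ne_eq, Nat.cast_eq_zero]
        omega
      rw [ENNReal.div_le_iff h8 (ENNReal.natCast_ne_top _), mul_assoc,
        mul_comm (((n + 1 : ℕ) : ℝ≥0∞)⁻¹), ← mul_assoc, ← div_eq_mul_inv,
        ENNReal.le_div_iff_mul_le (Or.inl h6) (Or.inl h7)]
      exact_mod_cast h4
  obtain ⟨m, hm1, hm2, hm3⟩ := hfo.amenable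
  exact ⟨m, hm1, fun s t hst => hm2 s t (hms t) hst, hm3⟩

end Pool.Agent.Helper29.NA
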