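import Pool.Agent.Helper29.NA.Mean

/-!
# Large expansion

Proofs. `mul`: `F * (S * T) = (F * S) * T`, `F * S` is the finite set `F * S`.
`harmonic`: the powers `S ^ k` have at most `|S| ^ k` elements (`Finset.card_pow_le`) and satisfy
`Expands (S ^ k) (C ^ k)`; `harmonic n ≤ 1 + log n` (`harmonic_le_one_add_log`, and `harmonic` is
monotone), so `2 harmonic (card (S ^ k)) ≤ 2 + 2 k log |S|`, which is `< C ^ k` for large `k`.
(`S` is nonempty: `F = {1}`.)
`subgroup`: `Q = closure S`, the set `S` regarded as a finite set in `Q`; if `F ⊆ Q` is finite then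
the image of `F * S'` in `G` is the product of the images.
-/

namespace Pool.Agent.Helper29.NA

open Function
open scoped ENNReal Pointwise

universe u v

theorem Expands.mul {G : Type u} [Group G] [DecidableEq G] {S T : Finset G} {C D : ℝ}
    (hC : Expands S C) (hD : Expands T D) (h0 : 0 ≤ D) : Expands (S * T) (C * D) := by
  intro F
  have h1 := hC F
  have h2 := hD (F * S)
  rw [← Finset.coe_mul, Set.ncard_coe_finset] at h1
  rw [Finset.coe_mul] at h2
  rw [Finset.coe_mul, ← mul_assoc]
  have h3 : C * D * (F.card : ℝ) = D * (C * F.card) := by ring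
  rw [h3]
  exact (mul_le_mul_of_nonneg_left h1 h0).trans h2

theorem expands_pow {G : Type u} [Group G] [DecidableEq G] {S : Finset G} {C : ℝ}
    (hC : Expands S C) (h0 : 0 ≤ C) (k : ℕ) : Expands (S ^ k) (C ^ k) := by
  induction k with
  | zero =>
    intro F
    simp
  | succ k ih =>
    rw [pow_succ, pow_succ]
    exact Expands.mul ih hC h0

theorem exists_expands_harmonic {G : Type u} [Group G] (h : ¬ HasMean G) :
    ∃ (S : Finset G) (C : ℝ), 2 * (harmonic S.card : ℝ) < C ∧ Expands S C := by
  classical
  obtain ⟨S, C, hC, hS⟩ := exists_expands h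
  have hne : S.Nonempty := by
    by_contra hS0
    rw [Finset.not_nonempty_iff_eq_empty] at hS0
    have := hS {1}
    rw [hS0] at this
    simp at this
    linarith
  have hd : (1 : ℝ) ≤ S.card := by exact_mod_cast hne.card_pos
  -- bound on the harmonic numbers
  have hb : ∀ k : ℕ, (harmonic (S ^ k).card : ℝ) ≤ 1 + k * Real.log S.card := by
    intro k
    refine (harmonic_le_one_add_log _).trans ?_
    have hk : ((S ^ k).card : ℝ) ≤ (S.card : ℝ) ^ k := by exact_mod_cast Finset.card_pow_le
    have hpos : (0 : ℝ) < (S ^ k).card := by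
      exact_mod_cast (hne.pow).card_pos
    have := Real.log_le_log hpos hk
    rw [Real.log_pow] at this
    linarith
  have ht : Filter.Tendsto (fun k : ℕ => ((2 + 2 * Real.log S.card) * (k + 1 : ℝ)) / C ^ k)
      Filter.atTop (nhds 0) := by
    have h1 := tendsto_pow_const_div_const_pow_of_one_lt 1 hC
    have h2 := tendsto_pow_const_div_const_pow_of_one_lt 0 hC
    have h3 := (h1.add h2).const_mul (2 + 2 * Real.log S.card)
    simp only [add_zero, mul_zero] at h3
    refine h3.congr fun k => ?_
    rw [pow_one, pow_zero, ← add_div, mul_div_assoc]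
  obtain ⟨k, hk⟩ := (ht.eventually (gt_mem_nhds one_pos)).exists
  have hCk : 0 < C ^ k := pow_pos (by linarith) k
  rw [div_lt_one hCk] at hk
  refine ⟨S ^ k, C ^ k, lt_of_le_of_lt ?_ hk, expands_pow hS (by linarith) k⟩
  have hl : 0 ≤ Real.log S.card := Real.log_nonneg hd
  have := hb k
  have hk0 : (0 : ℝ) ≤ k := Nat.cast_nonneg k
  nlinarith

theorem exists_subgroup {G : Type u} [Group G] (h : ¬ HasMean G) :
    ∃ Q : Subgroup G, Group.FG Q ∧
      ∃ (S : Finset Q) (C : ℝ), 2 * (harmonic S.card : ℝ) < C ∧ Expands S C := by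
  classical
  obtain ⟨S, C, hC, hS⟩ := exists_expands_harmonic h
  refine ⟨Subgroup.closure (S : Set G), ?_, ?_⟩
  · rw [Group.fg_iff_subgroup_fg]
    exact ⟨S, rfl⟩
  · have hsub : ∀ s ∈ S, s ∈ Subgroup.closure (S : Set G) := fun s hs =>
      Subgroup.subset_closure hs
    let S' : Finset (Subgroup.closure (S : Set G)) :=
      S.attach.image fun s => ⟨s.1, hsub s.1 s.2⟩
    have hS' : (fun x : Subgroup.closure (S : Set G) => (x : G)) '' (S' : Set _) = (S : Set G) := by
      ext x
      simp only [S', Finset.coe_image, Set.mem_image, Finset.mem_coe, Finset.mem_attach,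
        true_and, Subtype.exists]
      constructor
      · rintro ⟨y, hy, ⟨z, hz, hzy⟩, rfl⟩
        simp only [Subtype.mk.injEq] at hzy
        subst hzy
        exact hz
      · intro hx
        exact ⟨x, hsub x hx, ⟨x, hx, rfl⟩, rfl⟩
    refine ⟨S', C, ?_, ?_⟩
    · have : S'.card = S.card := by
        rw [Finset.card_image_of_injective, Finset.card_attach]
        intro a b hab
        simp only [Subtype.mk.injEq] at hab
        exact Subtype.ext hab
      rw [this]
      exact hC
    · intro F
      have h1 := hS (F.image fun x : Subgroup.closure (S : Set G) => (x : G))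
      have h2 : (F.image fun x : Subgroup.closure (S : Set G) => (x : G)).card = F.card :=
        Finset.card_image_of_injective _ Subtype.val_injective
      rw [h2] at h1
      refine h1.trans (le_of_eq ?_)
      have h3 : (fun x : Subgroup.closure (S : Set G) => (x : G)) '' ((F : Set _) * (S' : Set _)) =
          ((fun x : Subgroup.closure (S : Set G) => (x : G)) '' (F : Set _)) *
          ((fun x : Subgroup.closure (S : Set G) => (x : G)) '' (S' : Set _)) :=
        Set.image_mul (Subgroup.subtype _)
      rw [hS'] at h3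
      rw [Finset.coe_image, ← h3, Set.ncard_image_of_injective _ Subtype.val_injective]

end Pool.Agent.Helper29.NA
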